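import Mathlib

/-!
# Rounding lemma (note 2869, (R)) with Rosenthal's inequality for non-negative variables

Finite uniform laws; dependent types `Ω i`.
-/

namespace Pool.Agent.H56.FKR

open Finset Classical

section indep

variable {I : Type*} [Fintype I] {Ω : I → Type*}

/-- Independence: `F` does not depend on the coordinate `j`. -/
theorem sum_indep (G : ∀ i, Finset (Ω i)) (j : I) (f : Ω j → ℝ) (F : (∀ i, Ω i) → ℝ)
    (hF : ∀ ω a, F (Function.update ω j a) = F ω) :
    ((G j).card : ℝ) * ∑ ω ∈ Fintype.piFinset G, f (ω j) * F ω =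
      (∑ a ∈ G j, f a) * ∑ ω ∈ Fintype.piFinset G, F ω := by
  have h1 : ((G j).card : ℝ) * ∑ ω ∈ Fintype.piFinset G, f (ω j) * F ω =
      ∑ x ∈ Fintype.piFinset G ×ˢ G j, f (x.1 j) * F x.1 := by
    rw [Finset.sum_product, Finset.mul_sum]
    refine Finset.sum_congr rfl fun ω _ => ?_
    simp
  have h2 : (∑ a ∈ G j, f a) * ∑ ω ∈ Fintype.piFinset G, F ω =
      ∑ x ∈ Fintype.piFinset G ×ˢ G j, f x.2 * F x.1 := by
    rw [Finset.sum_product, mul_comm, Finset.sum_mul]
    refine Finset.sum_congr rfl fun ω _ => ?_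
    rw [Finset.mul_sum]
    refine Finset.sum_congr rfl fun a _ => ?_
    ring
  rw [h1, h2]
  refine Finset.sum_bij' (fun x _ => (Function.update x.1 j x.2, x.1 j))
    (fun x _ => (Function.update x.1 j x.2, x.1 j)) ?_ ?_ ?_ ?_ ?_
  · rintro ⟨ω, a⟩ hx
    simp only [Finset.mem_product, Fintype.mem_piFinset] at hx ⊢
    refine ⟨fun i => ?_, hx.1 j⟩
    by_cases hij : i = j
    · subst hij
      simpa using hx.2
    · simpa [Function.update_of_ne hij] using hx.1 i
  · rintro ⟨ω, a⟩ hx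
    simp only [Finset.mem_product, Fintype.mem_piFinset] at hx ⊢
    refine ⟨fun i => ?_, hx.1 j⟩
    by_cases hij : i = j
    · subst hij
      simpa using hx.2
    · simpa [Function.update_of_ne hij] using hx.1 i
  · rintro ⟨ω, a⟩ _
    simp
  · rintro ⟨ω, a⟩ _
    simp
  · rintro ⟨ω, a⟩ _
    simp [hF]

/-- the sum of a function of one coordinate -/
theorem sum_coord (G : ∀ i, Finset (Ω i)) (j : I) (f : Ω j → ℝ) :
    ((G j).card : ℝ) * ∑ ω ∈ Fintype.piFinset G, f (ω j) =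
      (∑ a ∈ G j, f a) * (Fintype.piFinset G).card := by
  have := sum_indep G j f (fun _ => 1) (fun _ _ => rfl)
  simpa using this

end indep

section rosenthal

variable {I : Type*} [Fintype I] {Ω : I → Type*}

theorem pow_pred_le {S L : ℝ} (hS : 0 ≤ S) (hL : 0 < L) (r : ℕ) :
    S ^ r ≤ L ^ r + S ^ (r + 1) / L := by
  rcases le_total S L with h | h
  · have h1 : S ^ r ≤ L ^ r := pow_le_pow_left₀ hS h r
    have h2 : 0 ≤ S ^ (r + 1) / L := by positivity
    linarith
  · have h1 : S ^ r ≤ S ^ (r + 1) / L := by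
      rw [le_div_iff₀ hL, pow_succ]
      exact mul_le_mul_of_nonneg_left h (by positivity)
    have h2 : 0 ≤ L ^ r := by positivity
    linarith

/-- Rosenthal's inequality for sums of independent non-negative variables: the average of
`(∑ T_i)^(r+1)` is at most `2^((r+1)^2) (∑ E T_i^(r+1) + a^(r+1))`. -/
theorem rosenthal (G : ∀ i, Finset (Ω i)) (hG : ∀ i, (G i).Nonempty) (T : ∀ i, Ω i → ℝ)
    (hT : ∀ i w, 0 ≤ T i w) {a : ℝ} (ha0 : 0 ≤ a)
    (ha : ∑ i, (∑ w ∈ G i, T i w) / ((G i).card : ℝ) ≤ a) (r : ℕ) :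
    (∑ ω ∈ Fintype.piFinset G, (∑ i, T i (ω i)) ^ (r + 1)) / ((Fintype.piFinset G).card : ℝ) ≤
      2 ^ ((r + 1) * (r + 1)) *
        (∑ i, (∑ w ∈ G i, T i w ^ (r + 1)) / ((G i).card : ℝ) + a ^ (r + 1)) := by
  set P : ℝ := ((Fintype.piFinset G).card : ℝ) with hP
  have hPpos : 0 < P := by
    rw [hP]
    exact_mod_cast Finset.card_pos.2 (Fintype.piFinset_nonempty.2 hG)
  have hgpos : ∀ i, (0 : ℝ) < (G i).card := fun i => by exact_mod_cast (hG i).card_pos
  set S : (∀ i, Ω i) → ℝ := fun ω => ∑ i, T i (ω i) with hS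
  have hS0 : ∀ ω, 0 ≤ S ω := fun ω => Finset.sum_nonneg fun i _ => hT i _
  set b : ℝ := ∑ i, (∑ w ∈ G i, T i w ^ (r + 1)) / ((G i).card : ℝ) with hb
  have hb0 : 0 ≤ b := Finset.sum_nonneg fun i _ =>
    div_nonneg (Finset.sum_nonneg fun w _ => pow_nonneg (hT i w) _) (hgpos i).le
  -- main recursion
  have hrec : ∑ ω ∈ Fintype.piFinset G, S ω ^ (r + 1) ≤
      2 ^ r * (P * b + a * ∑ ω ∈ Fintype.piFinset G, S ω ^ r) := by
    have h1 : ∀ i, ∑ ω ∈ Fintype.piFinset G, T i (ω i) * S ω ^ r ≤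
        2 ^ r * (P * ((∑ w ∈ G i, T i w ^ (r + 1)) / ((G i).card : ℝ)) +
          (∑ w ∈ G i, T i w) / ((G i).card : ℝ) * ∑ ω ∈ Fintype.piFinset G, S ω ^ r) := by
      intro i
      set R : (∀ i, Ω i) → ℝ := fun ω => ∑ j ∈ univ.erase i, T j (ω j) with hR
      have hR0 : ∀ ω, 0 ≤ R ω := fun ω => Finset.sum_nonneg fun j _ => hT j _
      have hRS : ∀ ω, S ω = T i (ω i) + R ω := fun ω =>
        (Finset.add_sum_erase univ (fun j => T j (ω j)) (mem_univ i)).symm
      have hRle : ∀ ω, R ω ≤ S ω := fun ω => by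
        rw [hRS]
        linarith [hT i (ω i)]
      have hRup : ∀ ω w, R (Function.update ω i w) = R ω := by
        intro ω w
        refine Finset.sum_congr rfl fun j hj => ?_
        rw [Function.update_of_ne (Finset.ne_of_mem_erase hj)]
      have h2 : ∑ ω ∈ Fintype.piFinset G, T i (ω i) * S ω ^ r ≤
          ∑ ω ∈ Fintype.piFinset G, 2 ^ r * (T i (ω i) ^ (r + 1) + T i (ω i) * R ω ^ r) := by
        refine Finset.sum_le_sum fun ω _ => ?_
        have h3 : S ω ^ r ≤ 2 ^ r * (T i (ω i) ^ r + R ω ^ r) := by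
          rw [hRS]
          refine (add_pow_le (hT i _) (hR0 ω) r).trans ?_
          refine mul_le_mul_of_nonneg_right (pow_le_pow_right₀ (by norm_num) (Nat.sub_le r 1)) ?_
          exact add_nonneg (pow_nonneg (hT i _) r) (pow_nonneg (hR0 ω) r)
        calc T i (ω i) * S ω ^ r ≤ T i (ω i) * (2 ^ r * (T i (ω i) ^ r + R ω ^ r)) :=
              mul_le_mul_of_nonneg_left h3 (hT i _)
          _ = 2 ^ r * (T i (ω i) ^ (r + 1) + T i (ω i) * R ω ^ r) := by ring
      refine h2.trans ?_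
      rw [← Finset.mul_sum, Finset.sum_add_distrib]
      refine mul_le_mul_of_nonneg_left ?_ (by positivity)
      have h4 : ∑ ω ∈ Fintype.piFinset G, T i (ω i) ^ (r + 1) =
          P * ((∑ w ∈ G i, T i w ^ (r + 1)) / ((G i).card : ℝ)) := by
        have := sum_coord G i (fun w => T i w ^ (r + 1))
        field_simp
        rw [mul_comm, this]
        ring
      have h5 : ∑ ω ∈ Fintype.piFinset G, T i (ω i) * R ω ^ r =
          (∑ w ∈ G i, T i w) / ((G i).card : ℝ) * ∑ ω ∈ Fintype.piFinset G, R ω ^ r := by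
        have := sum_indep G i (T i) (fun ω => R ω ^ r) (fun ω w => by simp only [hRup])
        have hg := (hgpos i).ne'
        field_simp
        rw [mul_comm, this]
      rw [h4, h5]
      refine add_le_add le_rfl (mul_le_mul_of_nonneg_left ?_ ?_)
      · exact Finset.sum_le_sum fun ω _ => pow_le_pow_left₀ (hR0 ω) (hRle ω) r
      · exact div_nonneg (Finset.sum_nonneg fun w _ => hT i w) (hgpos i).le
    calc ∑ ω ∈ Fintype.piFinset G, S ω ^ (r + 1)
        = ∑ i, ∑ ω ∈ Fintype.piFinset G, T i (ω i) * S ω ^ r := by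
          rw [Finset.sum_comm]
          refine Finset.sum_congr rfl fun ω _ => ?_
          rw [← Finset.sum_mul, pow_succ, mul_comm]
      _ ≤ ∑ i, 2 ^ r * (P * ((∑ w ∈ G i, T i w ^ (r + 1)) / ((G i).card : ℝ)) +
          (∑ w ∈ G i, T i w) / ((G i).card : ℝ) * ∑ ω ∈ Fintype.piFinset G, S ω ^ r) :=
          Finset.sum_le_sum fun i _ => h1 i
      _ = 2 ^ r * (P * b + (∑ i, (∑ w ∈ G i, T i w) / ((G i).card : ℝ)) *
            ∑ ω ∈ Fintype.piFinset G, S ω ^ r) := by
          rw [← Finset.mul_sum, Finset.sum_add_distrib, ← Finset.mul_sum, ← Finset.sum_mul]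
      _ ≤ 2 ^ r * (P * b + a * ∑ ω ∈ Fintype.piFinset G, S ω ^ r) := by
          refine mul_le_mul_of_nonneg_left (add_le_add le_rfl ?_) (by positivity)
          exact mul_le_mul_of_nonneg_right ha (Finset.sum_nonneg fun ω _ => pow_nonneg (hS0 ω) r)
  -- conclusion
  have hfin : ∑ ω ∈ Fintype.piFinset G, S ω ^ (r + 1) ≤
      P * (2 ^ ((r + 1) * (r + 1)) * (b + a ^ (r + 1))) := by
    rcases ha0.eq_or_lt with h0 | hapos
    · subst h0
      have : (2 : ℝ) ^ r ≤ 2 ^ ((r + 1) * (r + 1)) :=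
        pow_le_pow_right₀ (by norm_num) (by nlinarith)
      have h6 : (0 : ℝ) ^ (r + 1) = 0 := by simp
      rw [h6, add_zero]
      calc ∑ ω ∈ Fintype.piFinset G, S ω ^ (r + 1)
          ≤ 2 ^ r * (P * b + 0 * ∑ ω ∈ Fintype.piFinset G, S ω ^ r) := hrec
        _ = P * (2 ^ r * b) := by ring
        _ ≤ _ := by gcongr
    · set L : ℝ := 2 ^ (r + 1) * a with hL
      have hLpos : 0 < L := by positivity
      have h7 : ∑ ω ∈ Fintype.piFinset G, S ω ^ r ≤
          P * L ^ r + (∑ ω ∈ Fintype.piFinset G, S ω ^ (r + 1)) / L := by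
        calc ∑ ω ∈ Fintype.piFinset G, S ω ^ r
            ≤ ∑ ω ∈ Fintype.piFinset G, (L ^ r + S ω ^ (r + 1) / L) :=
              Finset.sum_le_sum fun ω _ => pow_pred_le (hS0 ω) hLpos r
          _ = P * L ^ r + (∑ ω ∈ Fintype.piFinset G, S ω ^ (r + 1)) / L := by
              rw [Finset.sum_add_distrib, Finset.sum_div]
              simp [hP]
      set m : ℝ := ∑ ω ∈ Fintype.piFinset G, S ω ^ (r + 1) with hm
      have h8 : m ≤ 2 ^ r * (P * b + a * (P * L ^ r + m / L)) := by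
        refine hrec.trans ?_
        gcongr
      have h9 : (2 : ℝ) ^ r * (a * (m / L)) = m / 2 := by
        rw [hL]
        field_simp
        ring
      have h10 : m ≤ 2 ^ (r + 1) * (P * b + a * (P * L ^ r)) := by
        have : m ≤ 2 ^ r * (P * b + a * (P * L ^ r)) + m / 2 := by
          calc m ≤ 2 ^ r * (P * b + a * (P * L ^ r + m / L)) := h8
            _ = 2 ^ r * (P * b + a * (P * L ^ r)) + 2 ^ r * (a * (m / L)) := by ring
            _ = _ := by rw [h9]
        have h11 : (2 : ℝ) ^ (r + 1) = 2 * 2 ^ r := by ring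
        rw [h11]
        linarith
      have h12 : a * L ^ r = 2 ^ ((r + 1) * r) * a ^ (r + 1) := by
        rw [hL, mul_pow, ← pow_mul]
        ring
      have h13 : (2 : ℝ) ^ (r + 1) ≤ 2 ^ ((r + 1) * (r + 1)) :=
        pow_le_pow_right₀ (by norm_num) (by nlinarith)
      calc m ≤ 2 ^ (r + 1) * (P * b + a * (P * L ^ r)) := h10
        _ = P * (2 ^ (r + 1) * b + 2 ^ (r + 1) * (a * L ^ r)) := by ring
        _ = P * (2 ^ (r + 1) * b + 2 ^ ((r + 1) * (r + 1)) * a ^ (r + 1)) := by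
            rw [h12, ← mul_assoc, ← pow_add]
            ring_nf
        _ ≤ P * (2 ^ ((r + 1) * (r + 1)) * b + 2 ^ ((r + 1) * (r + 1)) * a ^ (r + 1)) := by
            gcongr
        _ = _ := by ring
  rw [div_le_iff₀ hPpos]
  linarith [hfin]

end rosenthal

section rounding

variable {I K : Type*} [Fintype I] [Fintype K] {Ω : I → Type*} [∀ i, Fintype (Ω i)]
  [∀ i, Nonempty (Ω i)]

/-- Markov: the values at most `8 z` form at least `7/8` of a finite set -/
theorem markov_card {W : Type*} [Fintype W] (Z : W → ℝ) (hZ : ∀ w, 0 ≤ Z w) {z : ℝ}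
    (hz : (∑ w, Z w) / (Fintype.card W : ℝ) ≤ z) :
    8 * ((univ.filter fun w => ¬ Z w ≤ 8 * z).card : ℝ) ≤ Fintype.card W := by
  rcases isEmpty_or_nonempty W with hW | hW
  · simp
  have hc : (0 : ℝ) < Fintype.card W := by exact_mod_cast Fintype.card_pos
  rw [div_le_iff₀ hc] at hz
  have hsum0 : 0 ≤ ∑ w, Z w := Finset.sum_nonneg fun w _ => hZ w
  have hz0 : 0 ≤ z := by
    by_contra h
    push Not at h
    nlinarith
  rcases hz0.eq_or_lt with h0 | hpos
  · subst h0
    have h1 : ∑ w, Z w = 0 := le_antisymm (by simpa using hz) hsum0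
    have h2 : ∀ w, Z w = 0 := fun w =>
      (Finset.sum_eq_zero_iff_of_nonneg fun w _ => hZ w).1 h1 w (mem_univ w)
    have h3 : (univ.filter fun w => ¬ Z w ≤ 8 * 0) = ∅ := by
      ext w
      simp [h2 w]
    rw [h3]
    simp
  · have h1 : ((univ.filter fun w => ¬ Z w ≤ 8 * z).card : ℝ) * (8 * z) ≤ ∑ w, Z w := by
      calc ((univ.filter fun w => ¬ Z w ≤ 8 * z).card : ℝ) * (8 * z)
          = ∑ w ∈ univ.filter fun w => ¬ Z w ≤ 8 * z, 8 * z := by simp
        _ ≤ ∑ w ∈ univ.filter fun w => ¬ Z w ≤ 8 * z, Z w :=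
            Finset.sum_le_sum fun w hw => (not_le.1 (Finset.mem_filter.1 hw).2).le
        _ ≤ ∑ w, Z w :=
            Finset.sum_le_sum_of_subset_of_nonneg (Finset.filter_subset _ _) fun w _ _ => hZ w
    have h2 : (8 * ((univ.filter fun w => ¬ Z w ≤ 8 * z).card : ℝ)) * z ≤
        (Fintype.card W : ℝ) * z := by linarith
    exact le_of_mul_le_mul_right h2 hpos

/-- The rounding lemma. -/
theorem rounding (r : ℕ) (T : ∀ i, K → Ω i → ℝ) (hT : ∀ i k w, 0 ≤ T i k w) (a : K → ℝ)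
    (ha : ∀ k, ∑ i, (∑ w, T i k w) / (Fintype.card (Ω i) : ℝ) ≤ a k)
    (Z : ∀ i, Fin 3 → Ω i → ℝ) (hZ : ∀ i s w, 0 ≤ Z i s w) (z : I → Fin 3 → ℝ)
    (hz : ∀ i s, (∑ w, Z i s w) / (Fintype.card (Ω i) : ℝ) ≤ z i s) (β : I → ℝ)
    (hβ : ∀ i w, (∀ s, Z i s w ≤ 8 * z i s) → ∑ k, T i k w ^ (r + 1) ≤ β i) :
    ∃ ω : ∀ i, Ω i, (∀ i s, Z i s (ω i) ≤ 8 * z i s) ∧
      ∑ k, (∑ i, T i k (ω i)) ^ (r + 1) ≤
        2 ^ ((r + 2) * (r + 1)) * (∑ k, a k ^ (r + 1) + ∑ i, β i) := by
  set G : ∀ i, Finset (Ω i) := fun i => univ.filter fun w => ∀ s, Z i s w ≤ 8 * z i s with hG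
  have hcpos : ∀ i, (0 : ℝ) < Fintype.card (Ω i) := fun i => by exact_mod_cast Fintype.card_pos
  have hGcard : ∀ i, 5 * (Fintype.card (Ω i) : ℝ) ≤ 8 * ((G i).card : ℝ) := by
    intro i
    have h1 : (univ : Finset (Ω i)) ⊆ G i ∪ (univ : Finset (Fin 3)).biUnion
        (fun s => univ.filter fun w => ¬ Z i s w ≤ 8 * z i s) := by
      intro w _
      by_cases hw : w ∈ G i
      · exact Finset.mem_union_left _ hw
      · refine Finset.mem_union_right _ ?_
        simp only [hG, Finset.mem_filter, mem_univ, true_and, not_forall] at hw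
        obtain ⟨s, hs⟩ := hw
        simp only [Finset.mem_biUnion, mem_univ, true_and, Finset.mem_filter]
        exact ⟨s, hs⟩
    have h2 := Finset.card_le_card h1
    have h3 : (Fintype.card (Ω i) : ℝ) ≤ (G i).card +
        ∑ s : Fin 3, ((univ.filter fun w => ¬ Z i s w ≤ 8 * z i s).card : ℝ) := by
      have h4 := h2.trans (Finset.card_union_le _ _)
      have h5 := h4.trans (add_le_add le_rfl Finset.card_biUnion_le)
      rw [Finset.card_univ] at h5
      exact_mod_cast h5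
    have h6 : ∀ s : Fin 3, 8 * ((univ.filter fun w => ¬ Z i s w ≤ 8 * z i s).card : ℝ) ≤
        Fintype.card (Ω i) := fun s => markov_card (Z i s) (hZ i s) (hz i s)
    rw [Fin.sum_univ_three] at h3
    linarith [h6 0, h6 1, h6 2]
  have hGne : ∀ i, (G i).Nonempty := by
    intro i
    have h1 := hGcard i
    have h2 := hcpos i
    have h3 : (0 : ℝ) < (G i).card := by linarith
    exact Finset.card_pos.1 (by exact_mod_cast h3)
  have hgpos : ∀ i, (0 : ℝ) < (G i).card := fun i => by exact_mod_cast (hGne i).card_pos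
  have ha0 : ∀ k, 0 ≤ a k := fun k => le_trans (Finset.sum_nonneg fun i _ =>
    div_nonneg (Finset.sum_nonneg fun w _ => hT i k w) (hcpos i).le) (ha k)
  have hβ0 : ∀ i, 0 ≤ β i := by
    intro i
    obtain ⟨w, hw⟩ := hGne i
    refine le_trans (Finset.sum_nonneg fun k _ => pow_nonneg (hT i k w) _) (hβ i w ?_)
    exact (Finset.mem_filter.1 hw).2
  -- conditional means
  have hcond : ∀ k, ∑ i, (∑ w ∈ G i, T i k w) / ((G i).card : ℝ) ≤ 2 * a k := by
    intro k
    calc ∑ i, (∑ w ∈ G i, T i k w) / ((G i).card : ℝ)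
        ≤ ∑ i, 2 * ((∑ w, T i k w) / (Fintype.card (Ω i) : ℝ)) := by
          refine Finset.sum_le_sum fun i _ => ?_
          have h1 : ∑ w ∈ G i, T i k w ≤ ∑ w, T i k w :=
            Finset.sum_le_sum_of_subset_of_nonneg (Finset.filter_subset _ _) fun w _ _ => hT i k w
          have h2 : 0 ≤ ∑ w, T i k w := Finset.sum_nonneg fun w _ => hT i k w
          rw [div_le_iff₀ (hgpos i)]
          have h3 := hGcard i
          have h4 : (Fintype.card (Ω i) : ℝ) ≤ 2 * (G i).card := by linarith [hgpos i]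
          have h5 : ∑ w, T i k w ≤
              2 * ((∑ w, T i k w) / (Fintype.card (Ω i) : ℝ)) * (G i).card := by
            have h6 : 2 * ((∑ w, T i k w) / (Fintype.card (Ω i) : ℝ)) * (G i).card =
              (∑ w, T i k w) * ((2 * (G i).card) / (Fintype.card (Ω i) : ℝ)) := by ring
            rw [h6]
            have h7 : 1 ≤ (2 * ((G i).card : ℝ)) / (Fintype.card (Ω i) : ℝ) := by
              rw [le_div_iff₀ (hcpos i)]
              linarith
            nlinarith
          linarith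
      _ = 2 * ∑ i, (∑ w, T i k w) / (Fintype.card (Ω i) : ℝ) := by rw [Finset.mul_sum]
      _ ≤ 2 * a k := by linarith [ha k]
  set P : ℝ := ((Fintype.piFinset G).card : ℝ) with hP
  have hPpos : 0 < P := by
    rw [hP]
    exact_mod_cast Finset.card_pos.2 (Fintype.piFinset_nonempty.2 hGne)
  have hros := fun k => rosenthal G hGne (fun i => T i k) (fun i w => hT i k w)
    (a := 2 * a k) (by linarith [ha0 k]) (hcond k) r
  have hbk : ∑ k, ∑ i, (∑ w ∈ G i, T i k w ^ (r + 1)) / ((G i).card : ℝ) ≤ ∑ i, β i := by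
    rw [Finset.sum_comm]
    refine Finset.sum_le_sum fun i _ => ?_
    rw [← Finset.sum_div, Finset.sum_comm, div_le_iff₀ (hgpos i)]
    calc ∑ w ∈ G i, ∑ k, T i k w ^ (r + 1) ≤ ∑ _w ∈ G i, β i :=
          Finset.sum_le_sum fun w hw => hβ i w (Finset.mem_filter.1 hw).2
      _ = β i * (G i).card := by simp [mul_comm]
  have hsum : ∑ ω ∈ Fintype.piFinset G, ∑ k, (∑ i, T i k (ω i)) ^ (r + 1) ≤
      P * (2 ^ ((r + 2) * (r + 1)) * (∑ k, a k ^ (r + 1) + ∑ i, β i)) := by
    rw [Finset.sum_comm]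
    calc ∑ k, ∑ ω ∈ Fintype.piFinset G, (∑ i, T i k (ω i)) ^ (r + 1)
        ≤ ∑ k, P * (2 ^ ((r + 1) * (r + 1)) *
          (∑ i, (∑ w ∈ G i, T i k w ^ (r + 1)) / ((G i).card : ℝ) + (2 * a k) ^ (r + 1))) := by
          refine Finset.sum_le_sum fun k _ => ?_
          have := hros k
          rw [div_le_iff₀ hPpos] at this
          linarith
      _ = P * (2 ^ ((r + 1) * (r + 1)) *
          (∑ k, ∑ i, (∑ w ∈ G i, T i k w ^ (r + 1)) / ((G i).card : ℝ) +
            2 ^ (r + 1) * ∑ k, a k ^ (r + 1))) := by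
          rw [← Finset.mul_sum, ← Finset.mul_sum, Finset.sum_add_distrib]
          simp only [mul_pow, Finset.mul_sum]
      _ ≤ P * (2 ^ ((r + 1) * (r + 1)) * (∑ i, β i + 2 ^ (r + 1) * ∑ k, a k ^ (r + 1))) := by
          gcongr
      _ ≤ P * (2 ^ ((r + 1) * (r + 1)) *
            (2 ^ (r + 1) * ∑ i, β i + 2 ^ (r + 1) * ∑ k, a k ^ (r + 1))) := by
          have h1 : 0 ≤ ∑ i, β i := Finset.sum_nonneg fun i _ => hβ0 i
          have h2 : (1 : ℝ) ≤ 2 ^ (r + 1) := one_le_pow₀ (by norm_num)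
          gcongr
          nlinarith
      _ = P * (2 ^ ((r + 2) * (r + 1)) * (∑ k, a k ^ (r + 1) + ∑ i, β i)) := by
          have : (2 : ℝ) ^ ((r + 2) * (r + 1)) = 2 ^ ((r + 1) * (r + 1)) * 2 ^ (r + 1) := by
            rw [← pow_add]
            ring_nf
          rw [this]
          ring
  obtain ⟨ω, hω, hle⟩ : ∃ ω ∈ Fintype.piFinset G, ∑ k, (∑ i, T i k (ω i)) ^ (r + 1) ≤
      2 ^ ((r + 2) * (r + 1)) * (∑ k, a k ^ (r + 1) + ∑ i, β i) := by
    by_contra hcon
    push Not at hcon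
    have h1 : ∑ _ω ∈ Fintype.piFinset G, 2 ^ ((r + 2) * (r + 1)) *
        (∑ k, a k ^ (r + 1) + ∑ i, β i) <
        ∑ ω ∈ Fintype.piFinset G, ∑ k, (∑ i, T i k (ω i)) ^ (r + 1) :=
      Finset.sum_lt_sum_of_nonempty (Fintype.piFinset_nonempty.2 hGne) hcon
    rw [Finset.sum_const, nsmul_eq_mul] at h1
    linarith
  refine ⟨ω, fun i s => ?_, hle⟩
  have := Fintype.mem_piFinset.1 hω i
  exact (Finset.mem_filter.1 this).2 s

end rounding

end Pool.Agent.H56.FKR
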